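import Pool.Agent.H466.HD.SA

/-!
# From short windows to `[T, 2T]`
-/

set_option autoImplicit false

namespace Pool.Agent.H466.HD

open Complex MeasureTheory Set Filter Topology

namespace NT599

theorem log10 : (9 : ℝ) / 4 ≤ Real.log 10 := by
  rw [Real.le_log_iff_exp_le (by norm_num)]
  have h1 : Real.exp (9 / 4) = Real.exp 1 ^ 2 * Real.exp (1 / 4) := by
    rw [← Real.exp_nat_mul, ← Real.exp_add]
    norm_num
  have h2 : Real.exp 1 < 2.7182818286 := Real.exp_one_lt_d9
  have h3 : Real.exp (1 / 4) ≤ 1 / (1 - 1 / 4) := by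
    have := Real.one_sub_le_exp_neg (1 / 4)
    rw [Real.exp_neg] at this
    rw [le_div_iff₀ (by norm_num)]
    have h4 := Real.exp_pos (1 / 4)
    have h5 := mul_le_mul_of_nonneg_left this h4.le
    rwa [mul_inv_cancel₀ h4.ne'] at h5
  rw [h1]
  have h4 : Real.exp 1 ^ 2 ≤ 2.7182818286 ^ 2 := by
    exact pow_le_pow_left₀ (Real.exp_pos 1).le h2.le 2
  calc Real.exp 1 ^ 2 * Real.exp (1 / 4) ≤ 2.7182818286 ^ 2 * (1 / (1 - 1 / 4)) := by
        exact mul_le_mul h4 h3 (Real.exp_pos _).le (by norm_num)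
    _ ≤ 10 := by norm_num

end NT599

theorem nt (h : S_NTW) : S_NT := by
  intro ρ ε η ε0 hρ hε hε2 hη hε0
  obtain ⟨A0, δ, T0, hA0, hδ, hT0, H⟩ := h ρ ε η (ε0 / 100) hρ hε hε2 hη (by positivity)
  refine ⟨A0, δ, T0, hA0, hδ, hT0, fun T μ hT hμ h1 h2 => ?_⟩
  have hT10 : (10 : ℝ) ≤ T := hT0.trans hT
  have hTp : 0 < T := by linarith
  set L := Real.log T with hL
  have hL9 : (9 : ℝ) / 4 ≤ L := NT599.log10.trans (Real.log_le_log (by norm_num) hT10)
  have hLp : 0 < L := by linarith
  have hlog2 : Real.log 2 ≤ 1 := by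
    have := Real.log_two_lt_d9
    linarith
  set s : ℝ := T / (8 * (L + 1)) with hs
  have hsp : 0 < s := by positivity
  set n : ℕ := ⌊8 * (L + 1)⌋₊ + 1 with hn
  have hnle : (n : ℝ) ≤ 12 * L := by
    have := Nat.floor_le (show (0 : ℝ) ≤ 8 * (L + 1) by positivity)
    rw [hn]
    push_cast
    linarith
  set S : ℝ → Prop := fun t => ∀ y u : ℝ, |y - t| ≤ ρ * (μ * L) → (1 / 2 - 2 * ε) * L ≤ u →
        u ≤ (1 / 2 - ε) * L →
        ‖Wg μ u y‖ < Real.sqrt μ * Real.exp (-(η * (μ * L ^ 2))) *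
          ‖riemannZeta (1 / 2 + (μ * L : ℝ) + (t : ℂ) * I)‖ with hS
  -- the windows
  have hTi : ∀ i ∈ Finset.range n, T ≤ T + i * s ∧ T + i * s ≤ 2 * T := by
    intro i hi
    have hi1 : i ≤ ⌊8 * (L + 1)⌋₊ := by
      have := Finset.mem_range.1 hi
      omega
    have hi2 : (i : ℝ) ≤ 8 * (L + 1) :=
      (Nat.cast_le.2 hi1).trans (Nat.floor_le (by positivity))
    have hi3 : (i : ℝ) * s ≤ T := by
      have := mul_le_mul_of_nonneg_right hi2 hsp.le
      have e : 8 * (L + 1) * s = T := by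
        rw [hs]
        field_simp
      linarith
    constructor
    · have : 0 ≤ (i : ℝ) * s := by positivity
      linarith
    · linarith
  have hlogTi : ∀ x : ℝ, T ≤ x → x ≤ 2 * T → L ≤ Real.log x ∧ Real.log x ≤ L + 1 := by
    intro x hx hx2
    constructor
    · exact Real.log_le_log hTp hx
    · have := Real.log_le_log (hTp.trans_le hx) hx2
      rw [Real.log_mul (by norm_num) hTp.ne'] at this
      linarith
  set B : ℕ → Set ℝ := fun i => {t : ℝ | t ∈ Icc (T + i * s - (T + i * s) / (8 * Real.log (T + i * s)))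
      (T + i * s + (T + i * s) / (8 * Real.log (T + i * s))) ∧ S t} with hB
  have hBm : ∀ i ∈ Finset.range n, volume (B i) ≤ ENNReal.ofReal (ε0 / 100 * (2 * T / L)) := by
    intro i hi
    obtain ⟨g1, g2⟩ := hTi i hi
    obtain ⟨g3, g4⟩ := hlogTi _ g1 g2
    refine (H (T + i * s) L μ (hT.trans g1) ?_ hμ h1 h2).trans ?_
    · rw [abs_le]
      constructor <;> linarith
    · apply ENNReal.ofReal_le_ofReal
      apply mul_le_mul_of_nonneg_left _ (by positivity)
      exact div_le_div₀ (by positivity) g2 hLp g3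
  have hcov : {t : ℝ | t ∈ Icc T (2 * T) ∧ S t} ⊆ ⋃ i ∈ Finset.range n, B i := by
    rintro t ⟨⟨ht1, ht2⟩, htS⟩
    simp only [mem_iUnion]
    have hq : 0 ≤ (t - T) / s := div_nonneg (by linarith) hsp.le
    refine ⟨⌊(t - T) / s⌋₊, ?_, ?_⟩
    · rw [Finset.mem_range, hn, Nat.lt_succ_iff]
      apply Nat.floor_le_floor
      rw [div_le_iff₀ hsp]
      have e : 8 * (L + 1) * s = T := by
        rw [hs]
        field_simp
      linarith
    · have k1 : ((⌊(t - T) / s⌋₊ : ℕ) : ℝ) * s ≤ t - T := by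
        have := Nat.floor_le hq
        rwa [le_div_iff₀ hsp] at this
      have k2 : t - T < (((⌊(t - T) / s⌋₊ : ℕ) : ℝ) + 1) * s := by
        have := Nat.lt_floor_add_one ((t - T) / s)
        rwa [div_lt_iff₀ hsp] at this
      set i := ⌊(t - T) / s⌋₊ with hi
      have k0 : 0 ≤ (i : ℝ) * s := by positivity
      obtain ⟨g3, g4⟩ := hlogTi (T + i * s) (by linarith) (by linarith)
      have hw : s ≤ (T + i * s) / (8 * Real.log (T + i * s)) := by
        rw [hs]
        apply div_le_div₀ (by linarith) (by linarith) (by linarith)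
        linarith
      refine ⟨⟨?_, ?_⟩, htS⟩
      · linarith
      · linarith
  calc volume {t : ℝ | t ∈ Icc T (2 * T) ∧ S t} ≤ volume (⋃ i ∈ Finset.range n, B i) :=
        measure_mono hcov
    _ ≤ ∑ i ∈ Finset.range n, volume (B i) := measure_biUnion_finset_le _ _
    _ ≤ ∑ i ∈ Finset.range n, ENNReal.ofReal (ε0 / 100 * (2 * T / L)) := Finset.sum_le_sum hBm
    _ = ENNReal.ofReal (n * (ε0 / 100 * (2 * T / L))) := by
        rw [Finset.sum_const, Finset.card_range, nsmul_eq_mul,
          ENNReal.ofReal_mul (p := (n : ℝ)) (by positivity), ENNReal.ofReal_natCast]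
    _ ≤ ENNReal.ofReal (ε0 * T) := by
        apply ENNReal.ofReal_le_ofReal
        calc (n : ℝ) * (ε0 / 100 * (2 * T / L)) ≤ 12 * L * (ε0 / 100 * (2 * T / L)) := by
              apply mul_le_mul_of_nonneg_right hnle (by positivity)
          _ = 24 / 100 * (ε0 * T) := by
              field_simp
              ring
          _ ≤ ε0 * T := by
              have : 0 < ε0 * T := by positivity
              linarith

end Pool.Agent.H466.HD
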